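import Pool.Agent.H41.F8.W1

/-!
# Project MP_f8d35d_nt, module L3: at `13` and `73` no automorphism moves a point by `±P`
-/

namespace F8

theorem norm_natOm {p : ℕ} [Fact p.Prime] (n : ℕ) : ‖(n : Om p)‖ = ‖(n : ℚ_[p])‖ := by
  have h := PadicAlgCl.norm_extends p (n : ℚ_[p])
  rw [← h]
  congr 1

theorem norm_949 {p : ℕ} [Fact p.Prime] (hp : p = 13 ∨ p = 73) :
    ‖(949 : Om p)‖ = (p : ℝ)⁻¹ := by
  have h : ((949 : ℕ) : Om p) = (949 : Om p) := by norm_num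
  rw [← h, norm_natOm]
  rcases hp with rfl | rfl
  · have h1 : ((949 : ℕ) : ℚ_[13]) = ((13 : ℕ) : ℚ_[13]) * ((73 : ℕ) : ℚ_[13]) := by
      norm_num
    rw [h1, norm_mul, Padic.norm_p]
    have h2 : ‖((73 : ℕ) : ℚ_[13])‖ = 1 := Padic.norm_natCast_eq_one_iff.2 (by norm_num)
    rw [h2, mul_one]
  · have h1 : ((949 : ℕ) : ℚ_[73]) = ((73 : ℕ) : ℚ_[73]) * ((13 : ℕ) : ℚ_[73]) := by
      norm_num
    rw [h1, norm_mul, Padic.norm_p]
    have h2 : ‖((13 : ℕ) : ℚ_[73])‖ = 1 := Padic.norm_natCast_eq_one_iff.2 (by norm_num)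
    rw [h2, mul_one]

theorem norm_two_of {p : ℕ} [Fact p.Prime] (hp : p = 13 ∨ p = 73) :
    ‖(2 : Om p)‖ = 1 := by
  have h : ((2 : ℕ) : Om p) = (2 : Om p) := by norm_num
  rw [← h, norm_natOm]
  exact Padic.norm_natCast_eq_one_iff.2 (by rcases hp with rfl | rfl <;> norm_num)

theorem LA_aux {p : ℕ} [Fact p.Prime] (hp : p = 13 ∨ p = 73) (R : Pt (Om p)) (h0 : xc R ≠ 0)
    (h1 : ‖xc (R + PT)‖ = ‖xc R‖) (h2 : ‖xc (R - PT)‖ = ‖xc R‖) : False := by
  obtain ⟨k1, k2, -⟩ := addPStmt (Om p) R h0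
  have hR : R ≠ 0 := by rintro rfl; exact h0 rfl
  have e := pt_eqn R hR
  have e3 : xc R * xc (R + PT) * xc (R - PT) = -949 ^ 2 := by
    rw [k1, k2]
    field_simp
    linear_combination -e
  have e2 : xc R * xc (R + PT) + xc R * xc (R - PT) + xc (R + PT) * xc (R - PT) =
      -(2 * 949) := by
    rw [k1, k2]
    field_simp
    linear_combination -949 * e
  have n3 := congrArg norm e3
  rw [norm_mul, norm_mul, norm_neg, norm_pow, h1, h2, norm_949 hp] at n3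
  have n2 := congrArg norm e2
  rw [norm_neg, norm_mul, norm_two_of hp, norm_949 hp, one_mul] at n2
  set ρ : ℝ := ‖xc R‖ with hρ
  have b1 : ‖xc R * xc (R + PT)‖ ≤ ρ ^ 2 := by rw [norm_mul, h1]; exact le_of_eq (by ring)
  have b2 : ‖xc R * xc (R - PT)‖ ≤ ρ ^ 2 := by rw [norm_mul, h2]; exact le_of_eq (by ring)
  have b3 : ‖xc (R + PT) * xc (R - PT)‖ ≤ ρ ^ 2 := by
    rw [norm_mul, h1, h2]; exact le_of_eq (by ring)
  have b4 : (p : ℝ)⁻¹ ≤ ρ ^ 2 := by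
    rw [← n2]
    exact (IsUltrametricDist.norm_add_le_max _ _).trans
      (max_le ((IsUltrametricDist.norm_add_le_max _ _).trans (max_le b1 b2)) b3)
  have hp1 : (1 : ℝ) < p := by rcases hp with rfl | rfl <;> norm_num
  have hp0 : (0 : ℝ) < (p : ℝ)⁻¹ := by positivity
  have hq1 : (p : ℝ)⁻¹ < 1 := inv_lt_one_of_one_lt₀ hp1
  have c1 : ((p : ℝ)⁻¹) ^ 3 ≤ (ρ ^ 2) ^ 3 := pow_le_pow_left₀ hp0.le b4 3
  have c2 : (ρ ^ 2) ^ 3 = ((p : ℝ)⁻¹) ^ 4 := by
    have : (ρ ^ 2) ^ 3 = (ρ * ρ * ρ) ^ 2 := by ring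
    rw [this, n3]; ring
  rw [c2] at c1
  have c3 : ((p : ℝ)⁻¹) ^ 4 < ((p : ℝ)⁻¹) ^ 3 := pow_lt_pow_right_of_lt_one₀ hp0 hq1 (by norm_num)
  exact absurd c1 (not_le.2 c3)

/-- module L3 -/
theorem laStmt : LAStmt := by
  intro p _ hp R g
  have hsub : ∀ Q : Pt (Om p), xc Q = 0 → pm (g : Om p →+* Om p) Q = Q := by
    intro Q hQ
    rcases (xc_eq_zero_iff Q).1 hQ with rfl | rfl | rfl
    · simp
    · simp
    · rw [map_neg, pm_PT]
  have hPP : (PT : Pt (Om p)) + PT = -PT := PT_add_PT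
  constructor
  · intro h
    by_cases h0 : xc R = 0
    · rw [hsub R h0, sub_self] at h
      exact PT_ne_zero h.symm
    have h1 : pm (g : Om p →+* Om p) R = R + PT := by rw [← h]; abel
    have h2 : pm (g : Om p →+* Om p) (R + PT) = R - PT := by
      rw [map_add, h1, pm_PT, add_assoc, hPP, sub_eq_add_neg]
    refine LA_aux hp R h0 ?_ ?_
    · rw [← h1, xc_pm]; exact norm_gal g _
    · rw [← h2, xc_pm]
      refine (norm_gal g _).trans ?_
      rw [← h1, xc_pm]; exact norm_gal g _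
  · intro h
    by_cases h0 : xc R = 0
    · rw [hsub R h0, sub_self] at h
      exact neg_PT_ne_zero h.symm
    have h1 : pm (g : Om p →+* Om p) R = R - PT := by
      rw [sub_eq_add_neg, ← h]; abel
    have h2 : pm (g : Om p →+* Om p) (R - PT) = R + PT := by
      rw [map_sub, h1, pm_PT, sub_sub, hPP, sub_neg_eq_add]
    refine LA_aux hp R h0 ?_ ?_
    · rw [← h2, xc_pm]
      refine (norm_gal g _).trans ?_
      rw [← h1, xc_pm]; exact norm_gal g _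
    · rw [← h1, xc_pm]; exact norm_gal g _

end F8
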