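import Pool.Agent.H15.F8.Targets

/-!
# Project MP_f8d35d_nt, module W1: addition of points in explicit coordinates
-/

open WeierstrassCurve WeierstrassCurve.Affine

namespace F8

section

variable {A : Type} [Field A] [DecidableEq A] [Algebra ℚ A]

/-- the chord formula for `E` -/
theorem chord (R S : Pt A) (hR : R ≠ 0) (hS : S ≠ 0) (hx : xc R ≠ xc S) :
    R + S ≠ 0 ∧
    xc (R + S) = ((yc R - yc S) / (xc R - xc S)) ^ 2 + 2 * ((yc R - yc S) / (xc R - xc S))
      - xc R - xc S ∧
    yc (R + S) = -((yc R - yc S) / (xc R - xc S) * (xc (R + S) - xc R) + yc R)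
      - 2 * xc (R + S) + 949 := by
  match R, S, hR, hS, hx with
  | 0, _, h, _, _ => exact absurd rfl h
  | .some _ _ _, 0, _, h, _ => exact absurd rfl h
  | .some x y hn, .some x' y' hn', _, _, hx =>
    simp only [xc_some] at hx
    have h := Point.add_of_X_ne (W := (E⁄A)) (h₁ := hn) (h₂ := hn') hx
    rw [h]
    refine ⟨Point.some_ne_zero _, ?_, ?_⟩
    · simp only [xc_some, yc_some, Affine.addX, slope_of_X_ne hx]
      simp [E, WeierstrassCurve.baseChange]
    · simp only [xc_some, yc_some, Affine.addY, Affine.negAddY, Affine.negY, Affine.addX,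
        slope_of_X_ne hx]
      simp [E, WeierstrassCurve.baseChange]

end

/-- module W1 -/
theorem addPStmt : AddPStmt := by
  intro A _ _ _ R hx
  have hA : CharZero A := algebraRat.charZero A
  have hR : R ≠ 0 := by rintro rfl; exact hx rfl
  have e := pt_eqn R hR
  have hx' : xc R ≠ xc (PT : Pt A) := by simpa using hx
  have hxn : xc R ≠ xc (-PT : Pt A) := by rw [xc_neg]; simpa using hx
  obtain ⟨h1, h2, h3⟩ := chord R PT hR PT_ne_zero hx'
  obtain ⟨h4, h5, h6⟩ := chord R (-PT) hR neg_PT_ne_zero hxn
  simp only [xc_PT, yc_PT, sub_zero] at h2 h3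
  have hyn : yc (-PT : Pt A) = 949 := by
    rw [yc_neg _ PT_ne_zero]; simp
  rw [xc_neg] at h5
  rw [xc_neg, hyn] at h6
  rw [hyn] at h5
  simp only [xc_PT, sub_zero] at h5 h6
  have k1 : xc (R + PT) = 949 * yc R / xc R ^ 2 := by
    rw [h2]
    field_simp
    linear_combination e
  refine ⟨k1, ?_, ?_⟩
  · rw [sub_eq_add_neg, h5]
    field_simp
    linear_combination e
  · intro w hw
    have hy0 : yc R ≠ 0 := by
      intro h0
      rw [h0] at e
      apply hx
      have : xc R ^ 3 = 0 := by linear_combination -e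
      simpa using this
    unfold bet
    rw [h3, k1]
    have h949 : (949 : A) ≠ 0 := by norm_num
    field_simp
    linear_combination (949 * w ^ 2 - 949) * e + (900601 * yc R * w - 900601 * yc R) * hw

end F8
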