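import Pool.Agent.H41.F8.W3a

/-!
# Project MP_f8d35d_nt, module W3: translation of `sf`, `tf` by `3`-torsion
-/

open WeierstrassCurve WeierstrassCurve.Affine

namespace F8

section

variable {A : Type} [Field A] [DecidableEq A] [Algebra ℚ A]

/-- the duplication formula for `E` -/
theorem dup (R : Pt A) (hR : R ≠ 0) (hy : 2 * yc R + 2 * xc R - 949 ≠ 0) :
    R + R ≠ 0 ∧ xc (R + R) =
      ((3 * xc R ^ 2 - 2 * yc R) / (2 * yc R + 2 * xc R - 949)) ^ 2 +
      2 * ((3 * xc R ^ 2 - 2 * yc R) / (2 * yc R + 2 * xc R - 949)) - 2 * xc R := by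
  match R, hR, hy with
  | 0, h, _ => exact absurd rfl h
  | .some x y hn, _, hy =>
    simp only [xc_some, yc_some] at hy
    have hne : y ≠ (E⁄A).negY x y := by
      intro h
      apply hy
      have h' : (E⁄A).negY x y = -y - 2 * x + 949 := by
        simp only [Affine.negY, E, WeierstrassCurve.baseChange,
          WeierstrassCurve.map_a₁, WeierstrassCurve.map_a₃, map_neg, map_ofNat]
        ring
      rw [h'] at h
      linear_combination h
    have h := Point.add_self_of_Y_ne (W := (E⁄A)) (h₁ := hn) hne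
    rw [h]
    refine ⟨Point.some_ne_zero _, ?_⟩
    have hs : (E⁄A).slope x x y y = (3 * x ^ 2 - 2 * y) / (2 * y + 2 * x - 949) := by
      rw [Affine.slope_of_Y_ne rfl hne]
      simp only [Affine.negY, E, WeierstrassCurve.baseChange,
          WeierstrassCurve.map_a₁, WeierstrassCurve.map_a₂, WeierstrassCurve.map_a₃,
          WeierstrassCurve.map_a₄, map_neg, map_ofNat, map_zero]
      congr 1 <;> ring
    simp only [xc_some, yc_some, Affine.addX, hs]
    simp only [E, WeierstrassCurve.baseChange,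
          WeierstrassCurve.map_a₁, WeierstrassCurve.map_a₂, map_ofNat, map_zero]
    ring

theorem add_self_of_eq (R : Pt A) (hR : R ≠ 0) (hy : 2 * yc R + 2 * xc R - 949 = 0) :
    R + R = 0 := by
  have h : -R = R := by
    refine pt_ext (neg_ne_zero.2 hR) hR (xc_neg R) ?_
    rw [yc_neg _ hR]
    linear_combination -hy
  nth_rewrite 1 [← h]
  exact neg_add_cancel R

theorem three_smul' (R : Pt A) : (3 : ℕ) • R = R + R + R := by
  rw [show (3 : ℕ) = 2 + 1 from rfl, add_nsmul, two_nsmul, one_nsmul]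

/-- a `3`-torsion point with `x ≠ 0` is a root of the division polynomial -/
theorem psi_of_three (T : Pt A) (hT : (3 : ℕ) • T = 0) (h0 : xc T ≠ 0) :
    3 * xc T ^ 3 + 4 * xc T ^ 2 - 5694 * xc T + 2701803 = 0 := by
  have hT0 : T ≠ 0 := by rintro rfl; exact h0 rfl
  have e := pt_eqn T hT0
  rw [three_smul'] at hT
  by_cases hy : 2 * yc T + 2 * xc T - 949 = 0
  · rw [add_self_of_eq T hT0 hy, zero_add] at hT
    exact absurd hT hT0
  · obtain ⟨-, h2⟩ := dup T hT0 hy
    have h3 : T + T = -T := eq_neg_of_add_eq_zero_left hT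
    rw [h3, xc_neg] at h2
    have h4 : xc T * (2 * yc T + 2 * xc T - 949) ^ 2 =
        (3 * xc T ^ 2 - 2 * yc T) ^ 2 + 2 * (3 * xc T ^ 2 - 2 * yc T) *
        (2 * yc T + 2 * xc T - 949) - 2 * xc T * (2 * yc T + 2 * xc T - 949) ^ 2 := by
      have hy' : 2 * yc T + 2 * xc T - 949 ≠ 0 := hy
      generalize 2 * yc T + 2 * xc T - 949 = D at hy' h2
      field_simp at h2
      linear_combination h2
    have h5 : xc T * (3 * xc T ^ 3 + 4 * xc T ^ 2 - 5694 * xc T + 2701803) = 0 := by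
      linear_combination h4 - (12 * xc T + 4) * e
    exact (mul_eq_zero.1 h5).resolve_left h0

/-- conversely -/
theorem three_of_psi (T : Pt A) (hT0 : T ≠ 0)
    (h : 3 * xc T ^ 3 + 4 * xc T ^ 2 - 5694 * xc T + 2701803 = 0) : (3 : ℕ) • T = 0 := by
  have hA : CharZero A := algebraRat.charZero A
  have e := pt_eqn T hT0
  by_cases hy : 2 * yc T + 2 * xc T - 949 = 0
  · exfalso
    have h1 : 4 * xc T ^ 3 + 4 * xc T ^ 2 - 3796 * xc T + 900601 = 0 := by
      linear_combination (2 * yc T + 2 * xc T - 949) * hy - 4 * e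
    have h2 : (21906055715219 : A) = 0 := by
      linear_combination (10807212 + 15200 * xc T + 16 * xc T ^ 2) * h +
        (-8097817 - 11404 * xc T - 12 * xc T ^ 2) * h1
    norm_num at h2
  · obtain ⟨h1, h2⟩ := dup T hT0 hy
    have h3 : xc (T + T) = xc T := by
      have hy' : 2 * yc T + 2 * xc T - 949 ≠ 0 := hy
      rw [h2]
      generalize hD : 2 * yc T + 2 * xc T - 949 = D at hy'
      field_simp
      rw [← hD]
      linear_combination -xc T * h - (12 * xc T + 4) * e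
    have h4 : T + T = T ∨ T + T = -T := by
      have e2 := pt_eqn _ h1
      rw [h3] at e2
      have h5 : (yc (T + T) - yc T) * (yc (T + T) - (-yc T - 2 * xc T + 949)) = 0 := by
        linear_combination e2 - e
      rcases mul_eq_zero.1 h5 with h6 | h6
      · left; exact pt_ext h1 hT0 h3 (sub_eq_zero.1 h6)
      · right
        refine pt_ext h1 (neg_ne_zero.2 hT0) (by rw [h3, xc_neg]) ?_
        rw [yc_neg _ hT0]; exact sub_eq_zero.1 h6
    rw [three_smul']
    rcases h4 with h4 | h4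
    · exact absurd (add_eq_left.1 h4) hT0
    · rw [h4]; exact neg_add_cancel T

/-- if `β(R) = 0` then `R` is a `3`-torsion point -/
theorem three_of_bet (w : A) (hw : w ^ 2 + w + 1 = 0) (R : Pt A) (hR : R ≠ 0)
    (h : bet w R = 0) : (3 : ℕ) • R = 0 := by
  refine three_of_psi R hR ?_
  have hA : CharZero A := algebraRat.charZero A
  have e := pt_eqn R hR
  unfold bet at h
  generalize yc R = y at *
  generalize xc R = x at *
  linear_combination -3 * e + (y + (2/3)*w*x - 949*w + (4/3)*x - 949) * (1 - w ^ 2) * h +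
    (- y^2*w + 2*y^2 - (2/3)*y*w^2*x - 2*y*w*x + 949*y*w + (14/3)*y*x - 1898*y
      - (1898/3)*w^3*x + 900601*w^3 - (4/3)*w^2*x^2 + 1898*w^2*x - 900601*w^2 - (4/3)*w*x^2
      + (7592/3)*w*x - 1801202*w + 4*x^2 - 5694*x + 2701803) * hw

omit [DecidableEq A] [Algebra ℚ A] in
theorem w2_eq {w : A} (hw : w ^ 2 + w + 1 = 0) : (w ^ 2) ^ 2 + w ^ 2 + 1 = 0 := by
  linear_combination (w ^ 2 - w + 1) * hw

theorem nonvan (w : A) (hw : w ^ 2 + w + 1 = 0) (R : Pt A) (h : (3 : ℕ) • R ≠ 0) :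
    R ≠ 0 ∧ xc R ≠ 0 ∧ bet w R ≠ 0 ∧ bet (w ^ 2) R ≠ 0 := by
  have hR : R ≠ 0 := by rintro rfl; exact h (by simp)
  refine ⟨hR, ?_, fun h0 => h (three_of_bet w hw R hR h0),
    fun h0 => h (three_of_bet (w ^ 2) (w2_eq hw) R hR h0)⟩
  intro h0
  rcases (xc_eq_zero_iff R).1 h0 with rfl | rfl | rfl
  · exact h (by simp)
  · exact h three_PT
  · exact h (by rw [smul_neg, three_PT, neg_zero])

/-- translation by the `3`-torsion point `T` with `eta T = w`, `Dl T = d` -/
theorem trans_main (w d : A) (hw : w ^ 2 + w + 1 = 0) (hd : d ^ 3 = 25631) (R T : Pt A)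
    (hR : R ≠ 0) (hT : T ≠ 0) (ha : xc T = -(1 / 9) * (4 + 2 * d + d ^ 2))
    (hb : yc T = -(1 / 3) * xc T * (2 - w * d)) (hx : xc R ≠ xc T) (hB : bet (w ^ 2) R ≠ 0)
    (ha0 : xc T ≠ 0) :
    ∃ N : A, N ≠ 0 ∧ xc (R + T) * N = xc T * bet (w ^ 2) R ∧
      bet w (R + T) * N = d ^ 2 * xc T * xc R ∧
      bet (w ^ 2) (R + T) * N = -d * xc T * bet w R := by
  have hA : CharZero A := algebraRat.charZero A
  obtain ⟨-, h2, h3⟩ := chord R T hR hT hx
  have e := pt_eqn R hR
  have eT := pt_eqn T hT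
  have f1 := w3_alg1 w d (xc R) (yc R) (xc T) (yc T) hw hd e ha hb
  have f3 := w3_alg3 w d (xc T) (yc T) hw hd ha hb
  have f4 := w3_alg4 w d (xc T) (yc T) hw hd ha hb
  have hM : xc R - xc T ≠ 0 := sub_ne_zero.2 hx
  have hX : xc (R + T) * (xc R - xc T) ^ 2 = 949 * (yc R + yc T) - 2 * yc R * yc T
      - 2 * xc T * yc R - 2 * yc T * xc R + xc T * xc R * (xc R + xc T) := by
    rw [h2]
    field_simp
    linear_combination e + eT
  have hY : yc (R + T) * (xc R - xc T) = -((yc R - yc T) * (xc (R + T) - xc R)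
      + yc R * (xc R - xc T)) - 2 * xc (R + T) * (xc R - xc T) + 949 * (xc R - xc T) := by
    rw [h3]
    field_simp
  have hBdef : bet (w ^ 2) R = (1 - w ^ 2) * yc R - 2 * w ^ 2 * xc R
      + 949 * w ^ 2 * (1 - w ^ 2) := by
    unfold bet; ring
  rw [← hBdef] at f1
  have g1 : bet w (R + T) * (xc R - xc T) = w * (bet (w ^ 2) R * (xc R - xc T)
      - (d * w * xc T - bet (w ^ 2) R) * (xc (R + T) - xc R)) := by
    rw [hBdef]
    unfold bet
    generalize xc (R + T) = t at *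
    generalize yc (R + T) = u at *
    generalize xc R = x at *
    generalize yc R = y at *
    generalize xc T = a at *
    generalize yc T = b at *
    linear_combination (1 - w) * hY + (- y*w*a + y*w*t + y*a - y*t + b*w*x - b*w*t - b*x + b*t
      + 949*w^3*x - 949*w^3*a - 949*w^2*x + 949*w^2*a + 2*w*x*t - 949*w*x - 2*w*a*t + 949*w*a
      - 2*x*t + 949*x + 2*a*t - 949*a) * hw - w * (t - x) * f4
  have g2 : bet (w ^ 2) (R + T) * (xc R - xc T) = w ^ 2 * (bet w R * (xc R - xc T)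
      + bet w R * (xc (R + T) - xc R)) := by
    unfold bet
    generalize xc (R + T) = t at *
    generalize yc (R + T) = u at *
    generalize xc R = x at *
    generalize yc R = y at *
    generalize xc T = a at *
    generalize yc T = b at *
    linear_combination (1 - w ^ 2) * hY + (- y*w*a + y*w*t + y*a - y*t + b*w*x - b*w*t - b*x
      + b*t + 2*w*x*t - 949*w*x - 2*w*a*t + 949*w*a - 2*x*t + 949*x + 2*a*t - 949*a) * hw
      - w ^ 2 * (t - x) * f3
  have hN : xc (R + T) * (bet (w ^ 2) R + d * w * (xc R - xc T)) = xc T * bet (w ^ 2) R := by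
    apply mul_right_cancel₀ (pow_ne_zero 2 hM)
    rw [← hX] at f1
    linear_combination f1
  refine ⟨bet (w ^ 2) R + d * w * (xc R - xc T), ?_, hN, ?_, ?_⟩
  · intro h0
    rw [h0, mul_zero] at f1
    exact mul_ne_zero (mul_ne_zero ha0 hB) (pow_ne_zero 2 hM) f1.symm
  · apply mul_right_cancel₀ hM
    generalize bet w (R + T) = A1 at *
    generalize bet (w ^ 2) R = B at *
    generalize xc (R + T) = t at *
    generalize xc R = x at *
    generalize xc T = a at *
    linear_combination (B + d * w * (x - a)) * g1 - w * (d * w * a - B) * hN +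
      (w*x^2*a*d^2 - w*x*a^2*d^2 - x^2*a*d^2 + x*a^2*d^2) * hw
  · apply mul_right_cancel₀ hM
    generalize bet (w ^ 2) (R + T) = B1 at *
    generalize bet (w ^ 2) R = B at *
    generalize bet w R = A0 at *
    generalize xc (R + T) = t at *
    generalize xc R = x at *
    generalize xc T = a at *
    linear_combination (B + d * w * (x - a)) * g2 + w ^ 2 * A0 * hN +
      (- A0*w*x*a*d + A0*w*a^2*d + A0*x*a*d - A0*a^2*d) * hw

theorem st_trans (w d : A) (hw : w ^ 2 + w + 1 = 0) (hd : d ^ 3 = 25631) (R T : Pt A)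
    (hR : (3 : ℕ) • R ≠ 0) (hT : T ≠ 0) (ha : xc T = -(1 / 9) * (4 + 2 * d + d ^ 2))
    (hb : yc T = -(1 / 3) * xc T * (2 - w * d)) (hx : xc R ≠ xc T) (ha0 : xc T ≠ 0) :
    sf w (R + T) = w * sf w R ∧ tf w (R + T) = w ^ 2 * tf w R := by
  have hA : CharZero A := algebraRat.charZero A
  obtain ⟨hR0, hx0, hA0, hB0⟩ := nonvan w hw R hR
  obtain ⟨N, hN, h1, h2, h3⟩ := trans_main w d hw hd R T hR0 hT ha hb hx hB0 ha0
  have hd0 : d ≠ 0 := by
    rintro rfl
    norm_num at hd
  have k1 : xc (R + T) = xc T * bet (w ^ 2) R / N := (eq_div_iff hN).2 h1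
  have k2 : bet w (R + T) = d ^ 2 * xc T * xc R / N := (eq_div_iff hN).2 h2
  have k3 : bet (w ^ 2) (R + T) = -d * xc T * bet w R / N := (eq_div_iff hN).2 h3
  unfold sf tf
  rw [k1, k2, k3]
  generalize bet (w ^ 2) R = B at *
  generalize bet w R = A0 at *
  generalize xc R = x at *
  generalize xc T = a at *
  constructor
  · field_simp
    rw [hd]
    linear_combination (-656948161 * x ^ 3 * (w - 1)) * hw
  · field_simp
    rw [hd]
    linear_combination ((w - 1) * (656948161 * x ^ 3 - 25631 * w * B ^ 3)) * hw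

omit [DecidableEq A] in
theorem sf_sq (w : A) (hw : w ^ 2 + w + 1 = 0) (R : Pt A) : sf (w ^ 2) R = w ^ 2 * sf w R := by
  unfold sf
  have hw4 : (w ^ 2) ^ 2 = w := by linear_combination (w ^ 2 - w) * hw
  rw [hw4]
  generalize bet (w ^ 2) R = B at *
  generalize bet w R = A0 at *
  generalize xc R = x at *
  have h : B ^ 3 + w ^ 2 * A0 ^ 3 - 25631 * w * x ^ 3 =
      w ^ 2 * (A0 ^ 3 + w * B ^ 3 - 25631 * w ^ 2 * x ^ 3) := by
    linear_combination ((w - 1) * (25631 * w * x ^ 3 - B ^ 3)) * hw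
  rw [h]
  ring

omit [DecidableEq A] in
theorem tf_sq (w : A) (hw : w ^ 2 + w + 1 = 0) (R : Pt A) : tf (w ^ 2) R = w * tf w R := by
  unfold tf
  have hw4 : (w ^ 2) ^ 2 = w := by linear_combination (w ^ 2 - w) * hw
  rw [hw4]
  generalize bet (w ^ 2) R = B at *
  generalize bet w R = A0 at *
  generalize xc R = x at *
  have h : B ^ 3 + w * A0 ^ 3 - 25631 * w ^ 2 * x ^ 3 =
      w * (A0 ^ 3 + w ^ 2 * B ^ 3 - 25631 * w * x ^ 3) := by
    linear_combination (-(w - 1) * B ^ 3) * hw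
  rw [h]
  ring

/-- the cubic relation between `sf` and `tf` -/
theorem st_rel (w : A) (hw : w ^ 2 + w + 1 = 0) (R : Pt A) (hR : (3 : ℕ) • R ≠ 0) :
    tf w R ^ 3 - sf w R ^ 3 - 2 * sf w R * tf w R = -949 := by
  have hA : CharZero A := algebraRat.charZero A
  obtain ⟨hR0, hx0, hA0, hB0⟩ := nonvan w hw R hR
  have e := pt_eqn R hR0
  have hH : bet w R ^ 3 + bet (w ^ 2) R ^ 3 + 6 * xc R * bet w R * bet (w ^ 2) R =
      25631 * xc R ^ 3 := by
    unfold bet
    generalize yc R = y at *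
    generalize xc R = x at *
    linear_combination (- y*w^6 + 3*y*w^4 - y*w^3 - 3*y*w + 2*y - 2847*w^8 - 4*w^6*x + 7592*w^6 + 6*w^4*x -
      8541*w^4 + 2*w^3*x + 7592*w^3 - 5694*w^2 - 6*w*x + 2*x + 1898) * e
      + (- 2701803*y*w^8 + 2701803*y*w^7 - 5694*y*w^6*x + 5403606*y*w^6 + 5694*y*w^5*x -
      8105409*y*w^5 - y*w^4*x^3 - 4*y*w^4*x^2 + 3796*y*w^4*x + 1801202*y*w^4 + y*w^3*x^3 +
      4*y*w^3*x^2 - 3796*y*w^3*x + 3602404*y*w^3 + 3*y*w^2*x^3 - 2701803*y*w^2 - 5*y*w*x^3 +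
      4*y*w*x^2 + 1898*y*w*x - 1801202*y*w + 2*y*x^3 - 4*y*x^2 - 1898*y*x + 1801202*y -
      854670349*w^10 + 854670349*w^9 - 5403606*w^8*x + 2564011047*w^8 + 5403606*w^7*x -
      3418681396*w^7 - 2847*w^6*x^3 - 11388*w^6*x^2 + 10807212*w^6*x - 1709340698*w^6 +
      2847*w^5*x^3 + 11388*w^5*x^2 - 16210818*w^5*x + 5128022094*w^5 - 4*w^4*x^4 + 7584*w^4*x^3
      + 11388*w^4*x^2 + 5403606*w^4*x - 3418681396*w^4 + 4*w^3*x^4 - 10431*w^3*x^3 -
      11388*w^3*x^2 + 854670349*w^3 + 6*w^2*x^4 - 5694*w^2*x^3 - 8*w*x^4 + 23733*w*x^3 + 2*x^4 -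
      23733*x^3) * hw
  unfold sf tf
  generalize bet (w ^ 2) R = B at *
  generalize bet w R = A0 at *
  generalize xc R = x at *
  field_simp
  linear_combination (3*A0^6*B^3 - 76893*A0^6*x^3 + 18*A0^4*B^4*x - 461358*A0^4*B*x^4 + 3*A0^3*B^6*w^2 -
      3*A0^3*B^6*w + 3*A0^3*B^6 - 307572*A0^3*B^3*x^3*w + 307572*A0^3*B^3*x^3 +
      1970844483*A0^3*x^6*w^2 - 1970844483*A0^3*x^6*w + 1970844483*A0^3*x^6 + 18*A0*B^7*x*w -
      18*A0*B^7*x - 461358*A0*B^4*x^4*w^2 + 461358*A0*B^4*x^4*w - 461358*A0*B^4*x^4 +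
      11825066898*A0*B*x^7*w - 11825066898*A0*B*x^7 + B^9*w^4 - B^9*w^3 + 2*B^9*w - 2*B^9 -
      76893*B^6*x^3*w^3 + 76893*B^6*x^3*w - 76893*B^6*x^3 + 1970844483*B^3*x^6*w^3 -
      1970844483*B^3*x^6*w + 1970844483*B^3*x^6 - 16838238314591*x^9*w^4 +
      16838238314591*x^9*w^3 - 33676476629182*x^9*w + 33676476629182*x^9) * hw
      + (2*A0^6 + 6*A0^4*B*x - 5*A0^3*B^3 + 128155*A0^3*x^3 - 36*A0^2*B^2*x^2 + 6*A0*B^4*x -
      153786*A0*B*x^4 + 2*B^6 + 128155*B^3*x^3 + 1313896322*x^6) * hH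

theorem sf_div (w : A) (R : Pt A) (hx : xc R ≠ 0) : sf w R =
    -((bet w R / xc R) ^ 3 + w * (bet (w ^ 2) R / xc R) ^ 3 - 25631 * w ^ 2) /
    (9 * (bet w R / xc R) * (bet (w ^ 2) R / xc R)) := by
  unfold sf
  by_cases h1 : bet w R = 0
  · simp [h1]
  by_cases h2 : bet (w ^ 2) R = 0
  · simp [h2]
  have hA : CharZero A := algebraRat.charZero A
  field_simp

theorem tf_div (w : A) (R : Pt A) (hx : xc R ≠ 0) : tf w R =
    ((bet w R / xc R) ^ 3 + w ^ 2 * (bet (w ^ 2) R / xc R) ^ 3 - 25631 * w) /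
    (9 * (bet w R / xc R) * (bet (w ^ 2) R / xc R)) := by
  unfold tf
  by_cases h1 : bet w R = 0
  · simp [h1]
  by_cases h2 : bet (w ^ 2) R = 0
  · simp [h2]
  have hA : CharZero A := algebraRat.charZero A
  field_simp

/-- translation by `P` -/
theorem st_PT (w : A) (hw : w ^ 2 + w + 1 = 0) (R : Pt A) (hR : (3 : ℕ) • R ≠ 0) :
    sf w (R + PT) = sf w R ∧ tf w (R + PT) = tf w R := by
  obtain ⟨hR0, hx0, hA0, hB0⟩ := nonvan w hw R hR
  have hR' : (3 : ℕ) • (R + PT) ≠ 0 := by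
    rw [smul_add, three_PT, add_zero]; exact hR
  obtain ⟨hR0', hx0', hA0', hB0'⟩ := nonvan w hw _ hR'
  obtain ⟨-, -, h⟩ := addPStmt A R hx0
  have h1 := h w hw
  have h2 := h (w ^ 2) (w2_eq hw)
  rw [sf_div w _ hx0', sf_div w _ hx0, tf_div w _ hx0', tf_div w _ hx0, h1, h2]
  have hw3 : w ^ 3 = 1 := by linear_combination (w - 1) * hw
  have e1 : (w * (bet w R / xc R)) ^ 3 = (bet w R / xc R) ^ 3 := by
    rw [mul_pow, hw3, one_mul]
  have e2 : (w ^ 2 * (bet (w ^ 2) R / xc R)) ^ 3 = (bet (w ^ 2) R / xc R) ^ 3 := by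
    rw [mul_pow, ← pow_mul, show 2 * 3 = 3 * 2 from rfl, pow_mul, hw3, one_pow, one_mul]
  have e3 : 9 * (w * (bet w R / xc R)) * (w ^ 2 * (bet (w ^ 2) R / xc R)) =
      9 * (bet w R / xc R) * (bet (w ^ 2) R / xc R) := by
    linear_combination 9 * (bet w R / xc R) * (bet (w ^ 2) R / xc R) * hw3
  rw [e1, e2, e3]
  exact ⟨rfl, rfl⟩

/-- module W3 -/
theorem transStmt : TransStmt := by
  intro A _ _ _ w hw R hR
  have hA : CharZero A := algebraRat.charZero A
  refine ⟨st_rel w hw R hR, ?_⟩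
  intro T hT
  obtain ⟨hR0, hx0, hA0, hB0⟩ := nonvan w hw R hR
  by_cases h0 : xc T = 0
  · have heta : eta T = 1 := by unfold eta; rw [if_pos h0]
    rw [heta, one_pow, one_mul, one_mul]
    rcases (xc_eq_zero_iff T).1 h0 with rfl | rfl | rfl
    · rw [add_zero]; exact ⟨rfl, rfl⟩
    · exact st_PT w hw R hR
    · have hR' : (3 : ℕ) • (R + -PT) ≠ 0 := by
        rw [smul_add, hT, add_zero]; exact hR
      have := st_PT w hw _ hR'
      rw [neg_add_cancel_right] at this
      exact ⟨this.1.symm, this.2.symm⟩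
  · have hT0 : T ≠ 0 := by rintro rfl; exact h0 rfl
    have hpsi := psi_of_three T hT h0
    have e := pt_eqn T hT0
    have eR := pt_eqn R hR0
    have hx : xc R ≠ xc T := by
      intro hxx
      have h5 : (yc R - yc T) * (yc R - (-yc T - 2 * xc T + 949)) = 0 := by
        rw [hxx] at eR
        linear_combination eR - e
      rcases mul_eq_zero.1 h5 with h6 | h6
      · exact hR (by rw [pt_ext hR0 hT0 hxx (sub_eq_zero.1 h6)]; exact hT)
      · have : R = -T := by
          refine pt_ext hR0 (neg_ne_zero.2 hT0) (by rw [hxx, xc_neg]) ?_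
          rw [yc_neg _ hT0]; exact sub_eq_zero.1 h6
        exact hR (by rw [this, smul_neg, hT, neg_zero])
    obtain ⟨d, hd⟩ : ∃ d, d = Dl T := ⟨_, rfl⟩
    unfold Dl at hd
    have hda : d * xc T = 2 * xc T - 2847 := by rw [hd]; field_simp
    have hd3 : d ^ 3 = 25631 := by
      have h3 : (d ^ 3 - 25631) * xc T ^ 3 = 0 := by
        have : (d * xc T) ^ 3 = 25631 * xc T ^ 3 := by
          rw [hda]
          linear_combination (-8541) * hpsi
        linear_combination this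
      exact sub_eq_zero.1 ((mul_eq_zero.1 h3).resolve_right (pow_ne_zero 3 h0))
    have hd0 : d ≠ 0 := by
      rintro rfl
      norm_num at hd3
    have ha : xc T = -(1 / 9) * (4 + 2 * d + d ^ 2) := by
      have h2d : 2 - d ≠ 0 := by
        intro h
        have : d = 2 := by linear_combination -h
        rw [this] at hd3
        norm_num at hd3
      apply mul_right_cancel₀ h2d
      linear_combination -hda - (1 / 9) * hd3
    have hden : 2 * xc T - 2847 ≠ 0 := by
      rw [← hda]; exact mul_ne_zero hd0 h0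
    have hbb : (yc T - -(1 / 3) * xc T * (2 - w * d)) *
        (yc T - -(1 / 3) * xc T * (2 - w ^ 2 * d)) = 0 := by
      linear_combination e + (1 / 3) * yc T * hda + xc T ^ 2 * ha +
        (-(1 / 3) * xc T * yc T * d + (1 / 9) * xc T ^ 2 * (-2 * d + (w - 1) * d ^ 2)) * hw
    rcases mul_eq_zero.1 hbb with hb | hb
    · have hb' := sub_eq_zero.1 hb
      have heta : eta T = w := by
        unfold eta
        rw [if_neg h0, hb', ← hda]
        field_simp
        ring
      rw [heta]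
      exact st_trans w d hw hd3 R T hR hT0 ha hb' hx h0
    · have hb' := sub_eq_zero.1 hb
      have heta : eta T = w ^ 2 := by
        unfold eta
        rw [if_neg h0, hb', ← hda]
        field_simp
        ring
      rw [heta]
      obtain ⟨k1, k2⟩ := st_trans (w ^ 2) d (w2_eq hw) hd3 R T hR hT0 ha hb' hx h0
      rw [sf_sq w hw, sf_sq w hw] at k1
      rw [tf_sq w hw, tf_sq w hw] at k2
      have hw3 : w ^ 3 = 1 := by linear_combination (w - 1) * hw
      have hw0 : w ≠ 0 := by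
        rintro rfl
        norm_num at hw
      refine ⟨mul_left_cancel₀ (pow_ne_zero 2 hw0) k1, mul_left_cancel₀ hw0 ?_⟩
      rw [k2]; ring

end

end F8
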