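import Pool.Agent.H41.F8.W1

/-!
# Project MP_f8d35d_nt, module W3: translation of `sf`, `tf` by `3`-torsion
-/

open WeierstrassCurve WeierstrassCurve.Affine

namespace F8

section alg

variable {A : Type} [Field A] [CharZero A]

/-- the polynomial identity behind the chord formula for `x (R + T)` -/
theorem w3_alg1 (w d x y a b : A) (hw : w ^ 2 + w + 1 = 0) (hd : d ^ 3 = 25631)
    (e : y ^ 2 + 2 * x * y - 949 * y = x ^ 3)
    (ha : a = -(1 / 9) * (4 + 2 * d + d ^ 2)) (hb : b = -(1 / 3) * a * (2 - w * d)) :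
    (949 * (y + b) - 2 * y * b - 2 * a * y - 2 * b * x + a * x * (x + a)) *
      (((1 - w ^ 2) * y - 2 * w ^ 2 * x + 949 * w ^ 2 * (1 - w ^ 2)) + d * w * (x - a)) =
      a * ((1 - w ^ 2) * y - 2 * w ^ 2 * x + 949 * w ^ 2 * (1 - w ^ 2)) * (x - a) ^ 2 := by
  subst hb
  subst ha
  linear_combination (- (2/27)*d^3*w^3 + (2/27)*d^3*w - (4/27)*d^2*w^3 - (2/27)*d^2*w^2 + (4/27)*d^2*w + (2/27)*d^2 - (8/27)*d*w^3 - (4/27)*d*w^2 + (8/27)*d*w + (4/27)*d - (25631/27)*w^2 + (25631/27)) * e + ((5/729)*y*d^3*w^2 + (1/729)*y*d^3 + (2/81)*y*d^2*w^2 + (2/243)*y*d^2*w + (2/243)*y*d^2 + (1/27)*y*d*w^2*x + (16/243)*y*d*w^2 + (8/243)*y*d*w + (1/27)*y*d*x + (8/243)*y*d - (1898/27)*y*w^5 - (2/27)*y*w^3*x + (949/27)*y*w^3 + (128195/729)*y*w^2 + (11396/81)*y*w + (4/27)*y*x + (25687/729)*y + (1/729)*d^4*w*x - (949/729)*d^3*w^4 + (4/729)*d^3*w^2*x - (1898/729)*d^3*w^2 + (2/243)*d^3*w*x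 - (1898/243)*d^2*w^4 + (4/243)*d^2*w^2*x - (1898/243)*d^2*w^2 + (4/243)*d^2*w*x + (1898/243)*d^2*w - (949/27)*d*w^4*x - (7592/243)*d*w^4 + (8/243)*d*w^2*x - (3796/243)*d*w^2 + (25639/729)*d*w*x + (7592/243)*d*w - (1898/27)*w^5*x + (900601/27)*w^5 - (3796/27)*w^4*x - (24376963/729)*w^4 - (2/27)*w^3*x^3 - (4/27)*w^3*x^2 + (3796/27)*w^3*x - (900601/27)*w^3 - (4/27)*w^2*x^2 + (153754/729)*w^2*x - (48640046/729)*w^2 - (1/27)*w*x^3 - (4/27)*w*x^2 + (7592/27)*w*x + (7592/81)*w) * hd + (- (3796/27)*y*d^2*w^3 + (1898/27)*y*d^2*w^2 - (4/27)*y*d^2*w*x + (3796/27)*y*d^2*w + (4/27)*y*d^2*x + (28486/81)*y*d^2 - (7592/27)*y*d*w^3 + (3796/27)*y*d*w^2 - (8/27)*y*d*w*x + (7592/27)*y*d*w + (25631/27)*y*d*x + (91136/81)*y*d - (48647638/27)*y*w^3 + (24323819/27)*y*w^2 - (51262/27)*y*w*x + (48647638/27)*y*w + (51262/27)*y*x + (146147962/81)*y - (3796/27)*d^2*w^3*x + (1801202/27)*d^2*w^3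 - (3796/27)*d^2*w^2*x - (27033214/81)*d^2*w^2 - (4/27)*d^2*w*x^3 - (8/27)*d^2*w*x^2 + (15184/27)*d^2*w*x + (16226002/81)*d^2*w + (2/27)*d^2*x^3 - (7592/27)*d*w^3*x + (3602404/27)*d*w^3 - (24323819/27)*d*w^2*x - (86488064/81)*d*w^2 - (8/27)*d*w*x^3 - (16/27)*d*w*x^2 + (24346595/27)*d*w*x + (64873640/81)*d*w + (4/27)*d*x^3 - (48647638/27)*w^3*x + (23083304231/27)*w^3 - (48647638/27)*w^2*x - (138694415938/81)*w^2 - (51262/27)*w*x^3 - (102524/27)*w*x^2 + (194590552/27)*w*x + (194590552/81)*w + (25631/27)*x^3) * hw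

theorem w3_alg2 (w d a b : A) (hw : w ^ 2 + w + 1 = 0) (hd : d ^ 3 = 25631)
    (ha : a = -(1 / 9) * (4 + 2 * d + d ^ 2)) (hb : b = -(1 / 3) * a * (2 - w * d)) :
    b ^ 2 + 2 * a * b - 949 * b = a ^ 3 := by
  subst hb
  subst ha
  linear_combination ((1/729)*d^3*w^2 + (1/729)*d^3 + (4/729)*d^2*w^2 + (2/729)*d^2*w + (2/243)*d^2 + (4/243)*d*w^2 + (8/729)*d*w + (16/729)*d + (8549/243)*w^2 + (8549/243)*w + (25655/729)) * hd + ((34180/243)*d^2 + (102524/243)*d + (219119419/243)) * hw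

theorem w3_alg3 (w d a b : A) (hw : w ^ 2 + w + 1 = 0) (hd : d ^ 3 = 25631)
    (ha : a = -(1 / 9) * (4 + 2 * d + d ^ 2)) (hb : b = -(1 / 3) * a * (2 - w * d)) :
    (1 - w) * b - 2 * w * a + 949 * (w * (1 - w)) = 0 := by
  subst hb
  subst ha
  linear_combination ((1/27)*w^2 - (1/27)*w) * hd + ((2/27)*d^2 + (4/27)*d + (8/27)) * hw

theorem w3_alg4 (w d a b : A) (hw : w ^ 2 + w + 1 = 0) (hd : d ^ 3 = 25631)
    (ha : a = -(1 / 9) * (4 + 2 * d + d ^ 2)) (hb : b = -(1 / 3) * a * (2 - w * d)) :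
    (1 - w ^ 2) * b - 2 * w ^ 2 * a + 949 * (w ^ 2 * (1 - w ^ 2)) = d * w * a := by
  subst hb
  subst ha
  linear_combination ((1/27)*w^3 + (2/27)*w) * hd + ((2/27)*d^2*w + (2/27)*d^2 + (4/27)*d*w + (4/27)*d - 949*w^2 + (51254/27)*w + (8/27)) * hw

end alg

end F8
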